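import Pool.Agent.Helper20.QP.St3

set_option autoImplicit false

open Filter Topology Matrix Set Metric MeasureTheory
open scoped ComplexConjugate ENNReal

namespace Pool.Agent.Helper30.QP

open Pool.Agent.Helper35.PM Pool.Agent.Helper20.QD Pool.Agent.Helper20.QP
open Pool.Agent.Helper68.QC (nq Bel InvB Intw Sol)

lemma inv_diff {S : Set ℂ} (hS : IsOpen S) {f : ℂ → ℂ} (hf : DifferentiableOn ℂ f S)
    (hinj : InjOn f S) (hd : ∀ w ∈ S, deriv f w ≠ 0) :
    DifferentiableOn ℂ (Function.invFunOn f S) (f '' S) := by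
  rintro _ ⟨w, hw, rfl⟩
  have han : AnalyticAt ℂ f w := hf.analyticAt (hS.mem_nhds hw)
  have hst : HasStrictDerivAt f (deriv f w) w := han.hasStrictDerivAt
  have hne := hd w hw
  have hloc := hst.to_localInverse hne
  have hr := (hst.hasStrictFDerivAt_equiv hne).eventually_right_inverse
  have h0 : hst.localInverse f (deriv f w) w hne (f w) = w :=
    (hst.hasStrictFDerivAt_equiv hne).localInverse_apply_image
  have hmem : ∀ᶠ y in 𝓝 (f w), hst.localInverse f (deriv f w) w hne y ∈ S := by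
    refine hloc.hasDerivAt.continuousAt.eventually ?_
    rw [h0]
    exact hS.mem_nhds hw
  have heq : Function.invFunOn f S =ᶠ[𝓝 (f w)] hst.localInverse f (deriv f w) w hne := by
    filter_upwards [hr, hmem] with y hy1 hy2
    have hex : ∃ x ∈ S, f x = y := ⟨_, hy2, hy1⟩
    refine hinj (Function.invFunOn_mem hex) hy2 ?_
    rw [Function.invFunOn_eq hex]
    exact hy1.symm
  exact (hloc.hasDerivAt.congr_of_eventuallyEq heq).differentiableAt.differentiableWithinAt

lemma isOpen_Sab (b c : ℝ) : IsOpen (Sab b c) :=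
  (isOpen_lt continuous_const Complex.continuous_im).inter
    (isOpen_lt Complex.continuous_im continuous_const)

lemma isOpen_Sm (c : ℝ) : IsOpen (Sm c) :=
  (isOpen_lt continuous_const Complex.continuous_im).inter
    (isOpen_lt Complex.continuous_im continuous_const)

lemma sc_deriv {A : SL} {l : ℝ} {q : ℂ → ℂ} (h : SC A l q) {w : ℂ}
    (hw : w ∈ Sm (Real.pi / l)) : deriv q w ≠ 0 := by
  intro h0
  have h1 := h.den w hw
  rw [h0, norm_zero, zero_mul, zero_div] at h1
  have hl := h.l0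
  have h2 : 0 < Real.sin (l * w.im) := by
    refine Real.sin_pos_of_pos_of_lt_pi (mul_pos hl hw.1) ?_
    have := hw.2
    rw [lt_div_iff₀ hl] at this
    linarith
  have h3 : 0 < l / Real.sin (l * w.im) := div_pos hl h2
  linarith

theorem hSTM (hSUB : StSUB) (hLEQ : StLEQ) (hQEX : StQEX) (hQFAC : StQFAC) (hQPRE : StQPRE) :
    StSTM := by
  intro A A' l l' a b k1 q q' μs t hA hA' hq hq' hμs hk1 hint hdisc hb hba hh ht hcoef
  obtain ⟨e1, -, -, hhf, eper, eimg, -⟩ := hLEQ t a (Real.pi / l - 2 * a) ht (hb.trans hba).le hh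
  have hNq := hQEX k1 hk1 μs hμs
  set M : ℝ := Real.pi / l with hM
  set h : ℝ := M - 2 * a with hhdef
  set ν : ℂ → ℂ := fun w => if a < w.im ∧ w.im < a + h then t else 0 with hν
  have hsub : Sab b (M - b) ⊆ Sm M := fun w hw => ⟨hb.trans hw.1, by have := hw.2; linarith⟩
  have hVo : IsOpen (Sab b (M - b)) := isOpen_Sab _ _
  -- the equation on the strip
  have hsol0 := hQPRE μs univ (Sab b (M - b)) (nq μs) q isOpen_univ hVo (hq.hol.mono hsub)
    (hq.bij.injOn.mono hsub) (mapsTo_univ _ _) (fun w hw => sc_deriv hq (hsub hw)) hNq.sol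
  have hsol : Sol ν (Sab b (M - b)) (fun w => nq μs (q w)) := by
    obtain ⟨f1, f2, hwd, hae⟩ := hsol0
    refine ⟨f1, f2, hwd, ?_⟩
    filter_upwards [hae, ae_restrict_mem hVo.measurableSet] with w hw hwV
    rw [hw]
    congr 1
    have h1 := hcoef w hwV
    have h2 := sc_deriv hq (hsub hwV)
    have h3 : a + h = M - a := by rw [hhdef]; ring
    rw [hν]
    simp only
    rw [h3, ← mul_div_assoc, h1, mul_div_assoc, div_self h2, mul_one]
  have hBel : Bel ‖t‖ ν := by
    refine ⟨?_, fun z => ?_⟩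
    · refine Measurable.ite ?_ measurable_const measurable_const
      exact (measurableSet_lt measurable_const Complex.measurable_im).inter
        (measurableSet_lt Complex.measurable_im measurable_const)
    · rw [hν]
      simp only
      split_ifs
      · exact le_rfl
      · rw [norm_zero]
        exact norm_nonneg _
  have hF := hQFAC ‖t‖ ht ν hBel (Sab b (M - b)) (fun w => nq μs (q w)) hVo hsol
  have himg : nq ν '' Sab b (M - b) = Sab b (M - b - h + h * hf t) := by
    rw [← eimg b (M - b) hba.le (by rw [hhdef]; linarith)]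
    exact image_congr fun w _ => e1 w
  rw [himg] at hF
  have e1' : ∀ z, nq ν z = LE t a h z := e1
  generalize nq ν = N at hF himg e1'
  have hNper : ∀ w, N (w + 1) = N w + 1 := by
    intro w
    rw [e1', e1', eper]
  have hsymm : ∀ z, N.symm (z + 1) = N.symm z + 1 := by
    intro z
    rw [Homeomorph.symm_apply_eq, hNper, N.apply_symm_apply]
  set F : ℂ → ℂ := fun ζ => nq μs (q (N.symm ζ)) with hFdef
  have hNmem : ∀ ζ ∈ Sab b (M - b - h + h * hf t), N.symm ζ ∈ Sab b (M - b) := by
    intro ζ hζ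
    rw [← himg] at hζ
    obtain ⟨w, hw, rfl⟩ := hζ
    rw [N.symm_apply_apply]
    exact hw
  have hFD : ∀ ζ ∈ Sab b (M - b - h + h * hf t), F ζ ∈ D := by
    intro ζ hζ
    have h1 := hq.bij.mapsTo (hsub (hNmem ζ hζ))
    rw [mem_ball_zero_iff] at h1 ⊢
    exact (hdisc _).2 h1
  have hqinv : DifferentiableOn ℂ (Function.invFunOn q' (Sm (Real.pi / l'))) D := by
    have h1 := inv_diff (isOpen_Sm _) hq'.hol hq'.bij.injOn (fun w hw => sc_deriv hq' hw)
    rwa [hq'.bij.image_eq] at h1
  set m' : ℝ := h * hf t + 2 * (a - b) with hm'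
  have hshift : ∀ ζ ∈ Sm m', ζ + b * Complex.I ∈ Sab b (M - b - h + h * hf t) := by
    intro ζ hζ
    have him : (ζ + b * Complex.I).im = ζ.im + b := by simp
    refine ⟨?_, ?_⟩
    · rw [him]
      linarith [hζ.1]
    · rw [him]
      have h1 := hζ.2
      rw [hm'] at h1
      linarith [hhdef]
  have hex : ∀ y ∈ D, ∃ x ∈ Sm (Real.pi / l'), q' x = y := fun y hy => hq'.bij.surjOn hy
  set φ : ℂ → ℂ := fun ζ => Function.invFunOn q' (Sm (Real.pi / l')) (F (ζ + b * Complex.I))
    with hφ
  have hφq : ∀ ζ ∈ Sm m', q' (φ ζ) = F (ζ + b * Complex.I) := fun ζ hζ =>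
    Function.invFunOn_eq (hex _ (hFD _ (hshift ζ hζ)))
  have hφm : MapsTo φ (Sm m') (Sm (Real.pi / l')) := fun ζ hζ =>
    Function.invFunOn_mem (hex _ (hFD _ (hshift ζ hζ)))
  refine ⟨φ, ⟨?_, ?_, ?_⟩, hφm, ?_⟩
  · refine hqinv.comp (hF.comp ?_ hshift) (fun ζ hζ => hFD _ (hshift ζ hζ))
    fun_prop
  · intro ζ1 h1 ζ2 h2 h12
    have e2 : F (ζ1 + b * Complex.I) = F (ζ2 + b * Complex.I) := by
      rw [← hφq ζ1 h1, ← hφq ζ2 h2, h12]
    have e3 := (nq μs).injective e2
    have e4 := hq.bij.injOn (hsub (hNmem _ (hshift ζ1 h1))) (hsub (hNmem _ (hshift ζ2 h2))) e3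
    have e5 := N.symm.injective e4
    exact add_right_cancel e5
  · intro ζ hζ
    have hζ' : ζ ∈ Sm m' := hζ
    have hζ1 : ζ + 1 ∈ Sm m' := by
      refine ⟨?_, ?_⟩
      · simpa using hζ'.1
      · simpa using hζ'.2
    have hw := hNmem _ (hshift ζ hζ')
    have hden : Pool.Agent.Helper68.QC.den A (q (N.symm (ζ + b * Complex.I))) ≠ 0 :=
      (hSUB.1 A hA).2.1 _ (ball_subset_closedBall (hq.bij.mapsTo (hsub hw)))
    have e2 : F (ζ + 1 + b * Complex.I) = mob A' (F (ζ + b * Complex.I)) := by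
      have h1 : ζ + 1 + b * Complex.I = (ζ + b * Complex.I) + 1 := by ring
      simp only [hFdef]
      rw [h1, hsymm, hq.per _ (hsub hw)]
      exact hint.2.1 _ hden
    have e3 : q' (φ ζ + 1) = mob A' (q' (φ ζ)) := hq'.per _ (hφm hζ')
    have e4 : φ ζ + 1 ∈ Sm (Real.pi / l') := by
      refine ⟨?_, ?_⟩
      · simpa using (hφm hζ').1
      · simpa using (hφm hζ').2
    refine hq'.bij.injOn (hφm hζ1) e4 ?_
    rw [hφq _ hζ1, e2, e3, hφq _ hζ']
  · intro w hw
    have h2 : N w = LE t a h w := e1' w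
    have h3 : N w ∈ Sab b (M - b - h + h * hf t) := by
      rw [← himg]
      exact mem_image_of_mem _ hw
    have h1 : LE t a h w - b * Complex.I ∈ Sm m' := by
      rw [← h2]
      have him : (N w - b * Complex.I).im = (N w).im - b := by simp
      refine ⟨?_, ?_⟩
      · rw [him]
        linarith [h3.1]
      · rw [him, hm']
        linarith [h3.2, hhdef]
    rw [hφq _ h1, sub_add_cancel, ← h2]
    simp only [hFdef]
    rw [N.symm_apply_apply]

end Pool.Agent.Helper30.QP
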